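import Mathlib

/-!
# Automorphisms of finitely generated modules over commutative rings
-/

set_option autoImplicit false

namespace Pool.Agent.Y134.LP

open Polynomial

/-- An endomorphism of a module with `n` generators is a zero of a monic polynomial of degree
`n`. -/
theorem exists_poly {R M ι : Type*} [CommRing R] [Nontrivial R] [AddCommGroup M] [Module R M]
    [Fintype ι] [DecidableEq ι] (b : ι → M) (hb : Submodule.span R (Set.range b) = ⊤)
    (f : Module.End R M) :
    ∃ p : R[X], p.Monic ∧ p.natDegree = Fintype.card ι ∧ aeval f p = 0 := by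
  obtain ⟨A, hA⟩ := Matrix.isRepresentation.toEnd_surjective R b hb f
  refine ⟨A.1.charpoly, A.1.charpoly_monic, A.1.charpoly_natDegree_eq_dim, ?_⟩
  have h1 : aeval A A.1.charpoly = 0 := by
    apply Subtype.ext
    have h2 := aeval_algHom_apply (Matrix.isRepresentation R b).val A A.1.charpoly
    have h3 : ((aeval A A.1.charpoly : Matrix.isRepresentation R b) : Matrix ι ι R)
        = aeval A.1 A.1.charpoly := h2.symm
    rw [h3, Matrix.aeval_self_charpoly]
    rfl
  rw [← hA, aeval_algHom_apply, h1, map_zero]

/-- The powers are combinations of the first `n`. -/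
theorem pow_mem {R A : Type*} [CommRing R] [Semiring A] [Algebra R A] {f : A} {p : R[X]}
    (hp : p.Monic) {n : ℕ} (hn : p.natDegree = n) (h0 : aeval f p = 0) (i : ℕ) :
    f ^ i ∈ Submodule.span R (Set.range fun j : Fin n => f ^ (j : ℕ)) := by
  have h1 : f ^ i = aeval f ((X ^ i : R[X]) %ₘ p) := by
    conv_lhs => rw [← aeval_X (R := R) f, ← map_pow, ← modByMonic_add_div (X ^ i : R[X]) p]
    rw [map_add, map_mul, h0, zero_mul, add_zero]
  rw [h1, aeval_eq_sum_range]
  refine Submodule.sum_mem _ fun k hk => ?_
  by_cases hz : ((X ^ i : R[X]) %ₘ p) = 0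
  · rw [hz, coeff_zero, zero_smul]
    exact Submodule.zero_mem _
  · have h3 := natDegree_modByMonic_lt (X ^ i : R[X]) hp (by
      intro h4
      rw [h4, modByMonic_one] at hz
      exact hz rfl)
    rw [Finset.mem_range] at hk
    exact Submodule.smul_mem _ _ (Submodule.subset_span ⟨⟨k, by omega⟩, rfl⟩)

/-- If `u` commutes with `x ^ i * v * x ^ (-i)` for all `i < m ^ 2`, `m` the number of generators
of the module, then it commutes with all of them. -/
theorem comm_all {R M : Type*} [CommRing R] [AddCommGroup M] [Module R M] {m : ℕ} (b : Fin m → M)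
    (hb : Submodule.span R (Set.range b) = ⊤) (u x v : (Module.End R M)ˣ)
    (h : ∀ i < m * m, u * (x ^ i * v * (x ^ i)⁻¹) = (x ^ i * v * (x ^ i)⁻¹) * u) (i : ℕ) :
    u * (x ^ i * v * (x ^ i)⁻¹) = (x ^ i * v * (x ^ i)⁻¹) * u := by
  rcases subsingleton_or_nontrivial R with hR | hR
  · have := Module.subsingleton R M
    exact Units.ext (Subsingleton.elim _ _)
  obtain ⟨p₁, hp₁, hn₁, h₁⟩ := exists_poly b hb (x : Module.End R M)
  obtain ⟨p₂, hp₂, hn₂, h₂⟩ := exists_poly b hb ((x⁻¹ : (Module.End R M)ˣ) : Module.End R M)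
  rw [Fintype.card_fin] at hn₁ hn₂
  have hx := pow_mem hp₁ hn₁ h₁
  have hx' := pow_mem hp₂ hn₂ h₂
  set X₁ : Module.End R M := (x : Module.End R M) with hX₁
  set X₂ : Module.End R M := ((x⁻¹ : (Module.End R M)ˣ) : Module.End R M) with hX₂
  set V : Module.End R M := (v : Module.End R M) with hV
  let g : Fin m × Fin m → Module.End R M := fun q => X₁ ^ (q.1 : ℕ) * V * X₂ ^ (q.2 : ℕ)
  let N : Submodule R (Module.End R M) := Submodule.span R (Set.range g)
  have hN : ∀ a c : ℕ, X₁ ^ a * V * X₂ ^ c ∈ N := by
    intro a c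
    have h1 : ∀ p ∈ Submodule.span R (Set.range fun j : Fin m => X₁ ^ (j : ℕ)),
        ∀ q ∈ Submodule.span R (Set.range fun j : Fin m => X₂ ^ (j : ℕ)), p * V * q ∈ N := by
      intro p hp q hq
      induction hp using Submodule.span_induction with
      | mem p hp =>
        obtain ⟨j, rfl⟩ := hp
        induction hq using Submodule.span_induction with
        | mem q hq =>
          obtain ⟨l, rfl⟩ := hq
          exact Submodule.subset_span ⟨(j, l), rfl⟩
        | zero => rw [mul_zero]; exact N.zero_mem
        | add q q' _ _ h1 h2 => rw [mul_add]; exact N.add_mem h1 h2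
        | smul c q _ h1 => rw [mul_smul_comm]; exact N.smul_mem c h1
      | zero => rw [zero_mul, zero_mul]; exact N.zero_mem
      | add p p' _ _ h1 h2 => rw [add_mul, add_mul]; exact N.add_mem h1 h2
      | smul c p _ h1 => rw [smul_mul_assoc, smul_mul_assoc]; exact N.smul_mem c h1
    exact h1 _ (hx a) _ (hx' c)
  let F : Module.End R (Module.End R M) :=
    { toFun := fun Y => X₁ * Y * X₂
      map_add' := fun a b => by rw [mul_add, add_mul]
      map_smul' := fun c a => by
        rw [mul_smul_comm, smul_mul_assoc]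
        rfl }
  have hFa : ∀ Y, F Y = X₁ * Y * X₂ := fun Y => rfl
  have hst : ∀ Y ∈ N, F Y ∈ N := by
    intro Y hY
    induction hY using Submodule.span_induction with
    | mem Y hY =>
      obtain ⟨q, rfl⟩ := hY
      have h1 : F (g q) = X₁ ^ ((q.1 : ℕ) + 1) * V * X₂ ^ ((q.2 : ℕ) + 1) := by
        rw [hFa, pow_succ' X₁, pow_succ X₂]
        simp only [g, mul_assoc]
      rw [h1]
      exact hN _ _
    | zero => rw [map_zero]; exact N.zero_mem
    | add q q' _ _ h1 h2 => rw [map_add]; exact N.add_mem h1 h2
    | smul c q _ h1 => rw [map_smul]; exact N.smul_mem c h1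
  let gN : Fin m × Fin m → N := fun q => ⟨g q, Submodule.subset_span ⟨q, rfl⟩⟩
  have hgN : Submodule.span R (Set.range gN) = ⊤ := by
    apply Submodule.map_injective_of_injective N.injective_subtype
    rw [Submodule.map_span, Submodule.map_top, Submodule.range_subtype, ← Set.range_comp]
    rfl
  obtain ⟨p, hp, hn, h0⟩ := exists_poly gN hgN (F.restrict hst)
  rw [Fintype.card_prod, Fintype.card_fin] at hn
  have hF := pow_mem hp hn h0 i
  let v' : N := ⟨V, by simpa using hN 0 0⟩
  have hpow : ∀ j : ℕ, (((F.restrict hst) ^ j) v' : Module.End R M)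
      = ((x ^ j * v * (x ^ j)⁻¹ : (Module.End R M)ˣ) : Module.End R M) := by
    intro j
    induction j with
    | zero => simp [v', hV]
    | succ j ih =>
      rw [pow_succ', Module.End.mul_apply]
      change F (((F.restrict hst) ^ j) v' : Module.End R M) = _
      rw [ih, hFa, hX₁, hX₂, ← Units.val_mul, ← Units.val_mul]
      congr 1
      rw [pow_succ']
      group
  have hC : ∀ T ∈ Submodule.span R (Set.range fun j : Fin (m * m) => (F.restrict hst) ^ (j : ℕ)),
      (u : Module.End R M) * ((T v' : N) : Module.End R M)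
        = ((T v' : N) : Module.End R M) * (u : Module.End R M) := by
    intro T hT
    induction hT using Submodule.span_induction with
    | mem T hT =>
      obtain ⟨j, rfl⟩ := hT
      have h1 := congrArg Units.val (h j j.2)
      rw [Units.val_mul, Units.val_mul (x ^ (j : ℕ) * v * (x ^ (j : ℕ))⁻¹)] at h1
      change (u : Module.End R M) * (((F.restrict hst) ^ (j : ℕ)) v' : Module.End R M)
        = (((F.restrict hst) ^ (j : ℕ)) v' : Module.End R M) * (u : Module.End R M)
      rw [hpow]
      exact h1
    | zero => rw [LinearMap.zero_apply, Submodule.coe_zero, mul_zero, zero_mul]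
    | add T T' _ _ h1 h2 =>
      rw [LinearMap.add_apply, Submodule.coe_add, mul_add, add_mul, h1, h2]
    | smul c T _ h1 =>
      rw [LinearMap.smul_apply, Submodule.coe_smul, mul_smul_comm, smul_mul_assoc, h1]
  have h1 := hC _ hF
  rw [hpow] at h1
  apply Units.ext
  rw [Units.val_mul, Units.val_mul (x ^ i * v * (x ^ i)⁻¹)]
  exact h1

end Pool.Agent.Y134.LP
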