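import Pool.Agent.Helper39.ParaAsm
import Pool.Agent.Y134.LP.Comm

/-!
# Para-free groups with prescribed direct factors
-/

set_option autoImplicit false

namespace Pool.Agent.Y134.LP

open Pool.Agent.Helper39.ParaFree Pool.Agent.Helper189

universe u

section
variable {X : Type u}

/-- The subgroup of the words in the letters of a countable set. -/
lemma exists_countable (g : FreeGroup X) : ∃ S : Set X, S.Countable ∧
    ∃ h : FreeGroup S, FreeGroup.map (Subtype.val : S → X) h = g := by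
  have mono : ∀ {S T : Set X} (hST : S ⊆ T) (h : FreeGroup S),
      FreeGroup.map (Subtype.val : T → X) (FreeGroup.map (Set.inclusion hST) h)
        = FreeGroup.map (Subtype.val : S → X) h := by
    intro S T hST h
    rw [FreeGroup.map.comp]
    rfl
  induction g using FreeGroup.induction_on with
  | C1 => exact ⟨∅, Set.countable_empty, 1, map_one _⟩
  | of x => exact ⟨{x}, Set.countable_singleton x, FreeGroup.of ⟨x, rfl⟩, by simp⟩
  | inv_of x _ => exact ⟨{x}, Set.countable_singleton x, (FreeGroup.of ⟨x, rfl⟩)⁻¹, by simp⟩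
  | mul x y hx hy =>
    obtain ⟨S, hS, h, rfl⟩ := hx
    obtain ⟨T, hT, k, rfl⟩ := hy
    refine ⟨S ∪ T, hS.union hT, FreeGroup.map (Set.inclusion Set.subset_union_left) h *
      FreeGroup.map (Set.inclusion Set.subset_union_right) k, ?_⟩
    rw [map_mul, mono, mono]

/-- Free groups are residually nilpotent. -/
theorem lcs_bot' {g : FreeGroup X} (h : ∀ n, g ∈ (⊤ : Subgroup (FreeGroup X)).lowerCentralSeries n) :
    g = 1 := by
  classical
  obtain ⟨S, hS, g', rfl⟩ := exists_countable g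
  have : Countable S := hS.to_subtype
  let r : FreeGroup X →* FreeGroup S :=
    FreeGroup.lift fun x => if hx : x ∈ S then FreeGroup.of ⟨x, hx⟩ else 1
  have hr : ∀ k : FreeGroup S, r (FreeGroup.map (Subtype.val : S → X) k) = k := by
    intro k
    have h1 : r.comp (FreeGroup.map (Subtype.val : S → X)) = MonoidHom.id (FreeGroup S) := by
      apply FreeGroup.ext_hom
      intro s
      simp [r]
    exact DFunLike.congr_fun h1 k
  have h1 : g' = 1 := by
    apply FreeRep.lcs_bot
    intro n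
    have h2 := Subgroup.mem_map_of_mem r (h n)
    rw [hr, Subgroup.map_lowerCentralSeries] at h2
    exact Subgroup.lowerCentralSeries_mono n le_top h2
  rw [h1, map_one]

/-- A free abelian group of infinite rank absorbs a copy of itself. -/
theorem exists_sigmaY (Y : Type*) [Infinite Y] : Nonempty (Multiplicative (Y →₀ ℤ) ≃*
    Multiplicative (Y →₀ ℤ) × Multiplicative (Y →₀ ℤ)) := by
  obtain ⟨e0⟩ : Nonempty (Y ⊕ Y ≃ Y) := by
    rw [← Cardinal.eq, Cardinal.mk_sum, Cardinal.lift_id, Cardinal.add_mk_eq_self]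
  have e1 : (Y →₀ ℤ) ≃+ (Y ⊕ Y →₀ ℤ) := Finsupp.domCongr e0.symm
  have e2 : (Y ⊕ Y →₀ ℤ) ≃+ (Y →₀ ℤ) × (Y →₀ ℤ) := Finsupp.sumFinsuppAddEquivProdFinsupp
  have e3 := e1.trans e2
  exact ⟨{
    toFun := fun x => (Multiplicative.ofAdd (e3 x.toAdd).1, Multiplicative.ofAdd (e3 x.toAdd).2)
    invFun := fun y => Multiplicative.ofAdd (e3.symm (y.1.toAdd, y.2.toAdd))
    left_inv := fun x => by simp
    right_inv := fun y => by simp
    map_mul' := fun x y => by simp }⟩

theorem exists_sectionY {Y : Type*} {Q : Type*} [CommGroup Q] (p : Q →* Multiplicative (Y →₀ ℤ))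
    (hp : Function.Surjective p) : ∃ s : Multiplicative (Y →₀ ℤ) →* Q, ∀ a, p (s a) = a := by
  let p' : Additive Q →+ (Y →₀ ℤ) := MonoidHom.toAdditiveLeft p
  have hp' : Function.Surjective p'.toIntLinearMap := fun y => by
    obtain ⟨x, hx⟩ := hp (Multiplicative.ofAdd y)
    exact ⟨Additive.ofMul x, congrArg Multiplicative.toAdd hx⟩
  obtain ⟨s, hs⟩ := Module.projective_lifting_property p'.toIntLinearMap
    (LinearMap.id : (Y →₀ ℤ) →ₗ[ℤ] (Y →₀ ℤ)) hp'
  refine ⟨AddMonoidHom.toMultiplicativeLeft s.toAddMonoidHom, fun a => ?_⟩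
  have := LinearMap.congr_fun hs a.toAdd
  apply Multiplicative.toAdd.injective
  exact this

theorem absorbY {Y : Type*} [Infinite Y] {Q : Type*} [CommGroup Q]
    (p : Q →* Multiplicative (Y →₀ ℤ))
    (hp : Function.Surjective p) : Nonempty (Q × Multiplicative (Y →₀ ℤ) ≃* Q) := by
  obtain ⟨s, hs⟩ := exists_sectionY p hp
  obtain ⟨σ⟩ := exists_sigmaY Y
  refine ⟨{
    toFun := fun x => x.1 * (s (p x.1))⁻¹ * s (σ.symm (p x.1, x.2))
    invFun := fun r => (r * (s (p r))⁻¹ * s (σ (p r)).1, (σ (p r)).2)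
    left_inv := ?_
    right_inv := ?_
    map_mul' := ?_ }⟩
  · rintro ⟨q, a⟩
    have h1 : p (q * (s (p q))⁻¹ * s (σ.symm (p q, a))) = σ.symm (p q, a) := by
      rw [map_mul, map_mul, map_inv, hs, hs, mul_inv_cancel, one_mul]
    simp only [h1, MulEquiv.apply_symm_apply]
    refine Prod.ext ?_ rfl
    simp only
    group
  · intro r
    have h1 : p (r * (s (p r))⁻¹ * s (σ (p r)).1) = (σ (p r)).1 := by
      rw [map_mul, map_mul, map_inv, hs, hs, mul_inv_cancel, one_mul]
    simp only [h1, Prod.mk.eta, MulEquiv.symm_apply_apply]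
    group
  · rintro ⟨q, a⟩ ⟨q', a'⟩
    simp only [Prod.mk_mul_mk]
    have h1 : σ.symm (p (q * q'), a * a') = σ.symm (p q, a) * σ.symm (p q', a') := by
      rw [← map_mul σ.symm, map_mul p]; rfl
    rw [h1]
    simp only [map_mul, mul_inv_rev, mul_comm, mul_left_comm, mul_assoc]

theorem absorbY' {Y : Type*} [Infinite Y] {Q : Type*} [Group Q] (hc : ∀ a b : Q, a * b = b * a)
    (p : Q →* Multiplicative (Y →₀ ℤ)) (hp : Function.Surjective p) :
    Nonempty (Q × Multiplicative (Y →₀ ℤ) ≃* Q) := by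
  letI : CommGroup Q := { (inferInstance : Group Q) with mul_comm := hc }
  exact absorbY p hp

/-- The factors of `F × L` agree with those of the free group `F`. -/
theorem factors' {L : Type u} [Group L] (g : X → L) (hg : Function.Surjective g) (i : ℕ)
    {Y : Type*} [Infinite Y] (e : Fac L i ≃* Multiplicative (Y →₀ ℤ)) :
    Nonempty (Fac (FreeGroup X × L) i ≃* Fac (FreeGroup X) i) := by
  have hf : Function.Surjective (FreeGroup.lift g) := fun h => by
    obtain ⟨n, rfl⟩ := hg h
    exact ⟨FreeGroup.of n, by simp⟩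
  obtain ⟨p, hp⟩ := fac_surj (FreeGroup.lift g) hf i
  obtain ⟨e1⟩ := fac_prod (FreeGroup X) L i
  obtain ⟨e2⟩ := absorbY' (fac_comm (G := FreeGroup X) (i := i)) (e.toMonoidHom.comp p)
    (e.surjective.comp hp)
  exact ⟨e1.trans ((MulEquiv.prodCongr (MulEquiv.refl _) e).trans e2)⟩

end

lemma iInf_prod {A B : Type*} [Group A] [Group B]
    (hA : ⨅ i, (⊤ : Subgroup A).lowerCentralSeries i = ⊥)
    (hB : ⨅ i, (⊤ : Subgroup B).lowerCentralSeries i = ⊥) :
    ⨅ i, (⊤ : Subgroup (A × B)).lowerCentralSeries i = ⊥ := by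
  rw [eq_bot_iff]
  rintro ⟨g, h⟩ hx
  rw [Subgroup.mem_iInf] at hx
  have hx1 : ∀ n, g ∈ (⊤ : Subgroup A).lowerCentralSeries n ∧
      h ∈ (⊤ : Subgroup B).lowerCentralSeries n := by
    intro n
    have := hx n
    rw [Subgroup.top_lowerCentralSeries_prod] at this
    exact this
  have h1 : g = 1 := by
    have : g ∈ ⨅ j, (⊤ : Subgroup A).lowerCentralSeries j :=
      Subgroup.mem_iInf.2 fun n => (hx1 n).1
    rwa [hA, Subgroup.mem_bot] at this
  have h2 : h = 1 := by
    have : h ∈ ⨅ j, (⊤ : Subgroup B).lowerCentralSeries j :=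
      Subgroup.mem_iInf.2 fun n => (hx1 n).2
    rwa [hB, Subgroup.mem_bot] at this
  rw [h1, h2]
  exact Subgroup.one_mem _

lemma iInf_free (X : Type u) : ⨅ i, (⊤ : Subgroup (FreeGroup X)).lowerCentralSeries i = ⊥ := by
  rw [eq_bot_iff]
  intro g hg
  rw [Subgroup.mem_iInf] at hg
  rw [Subgroup.mem_bot]
  exact lcs_bot' hg

/-- The factors of `K × H`. -/
theorem fac_prod_H {K : Type u} [Group K] {i : ℕ} {Y : Type u}
    (e : Fac K i ≃* Multiplicative (Y →₀ ℤ)) :
    Nonempty (Fac (K × H) i ≃* Multiplicative (Y ⊕ ℕ →₀ ℤ)) := by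
  obtain ⟨e1⟩ := fac_prod K H i
  obtain ⟨e2⟩ := fac_H i
  have e4 : (Y →₀ ℤ) × (ℕ →₀ ℤ) ≃+ (Y ⊕ ℕ →₀ ℤ) :=
    (Finsupp.sumFinsuppAddEquivProdFinsupp (α := Y) (β := ℕ) (M := ℤ)).symm
  let e5 : Multiplicative (Y →₀ ℤ) × Multiplicative (ℕ →₀ ℤ) ≃* Multiplicative (Y ⊕ ℕ →₀ ℤ) :=
    { toFun := fun x => Multiplicative.ofAdd (e4 (x.1.toAdd, x.2.toAdd))
      invFun := fun y => (Multiplicative.ofAdd (e4.symm y.toAdd).1,
        Multiplicative.ofAdd (e4.symm y.toAdd).2)
      left_inv := fun x => by simp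
      right_inv := fun y => by simp
      map_mul' := fun x y => by
        rw [← ofAdd_add, ← map_add]
        rfl }
  exact ⟨e1.trans ((MulEquiv.prodCongr e e2).trans e5)⟩

lemma card_prod_H {X K : Type u} [Infinite X] (h : Cardinal.mk K ≤ Cardinal.mk X) :
    Cardinal.mk (K × H) ≤ Cardinal.mk X := by
  have := countable_H
  rw [Cardinal.mk_prod, Cardinal.lift_uzero]
  refine Cardinal.mul_le_of_le (Cardinal.aleph0_le_mk X) h ?_
  refine le_trans ?_ (Cardinal.aleph0_le_mk X)
  rw [Cardinal.lift_le_aleph0]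
  exact Cardinal.mk_le_aleph0

lemma exists_surj {X L : Type u} [Nonempty L] (h : Cardinal.mk L ≤ Cardinal.mk X) :
    ∃ g : X → L, Function.Surjective g := by
  obtain ⟨f⟩ := h
  exact ⟨Function.invFun f, (Function.leftInverse_invFun f.injective).surjective⟩

/-- The product of a free group of infinite rank, a group `K` and `H`. -/
theorem para {X : Type u} [Infinite X] {K : Type u} [Group K] (h : Cardinal.mk K ≤ Cardinal.mk X)
    (hK : ⨅ i, (⊤ : Subgroup K).lowerCentralSeries i = ⊥)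
    (hf : ∀ i : ℕ, ∃ Y : Type u, Nonempty (Fac K i ≃* Multiplicative (Y →₀ ℤ))) :
    (∀ i, Nonempty (Fac (FreeGroup X × (K × H)) i ≃* Fac (FreeGroup X) i)) ∧
      ⨅ i, (⊤ : Subgroup (FreeGroup X × (K × H))).lowerCentralSeries i = ⊥ := by
  refine ⟨fun i => ?_, iInf_prod (iInf_free X) (iInf_prod hK iInf_lcs_H)⟩
  obtain ⟨Y, ⟨e⟩⟩ := hf i
  obtain ⟨e'⟩ := fac_prod_H e
  obtain ⟨g, hg⟩ := exists_surj (card_prod_H h)
  exact factors' g hg i e'

/-- The factors of the trivial group. -/
theorem fac_punit (i : ℕ) : ∃ Y : Type u,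
    Nonempty (Fac PUnit.{u + 1} i ≃* Multiplicative (Y →₀ ℤ)) := by
  refine ⟨PEmpty, ⟨?_⟩⟩
  have h1 : Subsingleton (Fac PUnit.{u + 1} i) := by
    constructor
    intro a b
    induction a using QuotientGroup.induction_on with
    | H a =>
      induction b using QuotientGroup.induction_on with
      | H b => exact congrArg _ (Subsingleton.elim a b)
  let h2 : Unique (Fac PUnit.{u + 1} i) := ⟨⟨1⟩, fun a => Subsingleton.elim _ _⟩
  let h3 : Unique (Multiplicative (PEmpty.{u + 1} →₀ ℤ)) :=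
    ⟨⟨1⟩, fun a => Multiplicative.toAdd.injective (Subsingleton.elim _ _)⟩
  exact MulEquiv.ofUnique

universe v w

/-- The group `G` does not embed into the automorphism group of a finitely generated module over a
commutative ring. -/
def NoRep (G : Type*) [Group G] : Prop :=
  ∀ (R : Type v) [CommRing R] (M : Type w) [AddCommGroup M] [Module R M] [Module.Finite R M]
    (f : G →* (Module.End R M)ˣ), ¬ Function.Injective f

lemma NoRep.mono {G L : Type*} [Group G] [Group L] (h : NoRep.{v, w} L) (ι : L →* G)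
    (hι : Function.Injective ι) : NoRep.{v, w} G := by
  intro R _ M _ _ _ f hf
  refine h R M (f.comp ι) ?_
  rw [MonoidHom.coe_comp]
  exact hf.comp hι

/-- The group `H` has no faithful representation by automorphisms of a finitely generated module. -/
theorem noRep_H : NoRep.{v, w} H := by
  intro R _ M _ _ _ f hf
  obtain ⟨m, b, hb⟩ := Module.Finite.exists_fin (R := R) (M := M)
  set k := m * m with hk
  let u : H := ⟨t 0 1 1, t_mem 0 0 1⟩
  let x : H := ⟨X k, X_mem k⟩
  let v : H := ⟨t (k + 1) (k + 2) 1, t_mem (k + 1) 0 1⟩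
  have key : ∀ i, (u * (x ^ i * v * (x ^ i)⁻¹) = (x ^ i * v * (x ^ i)⁻¹) * u) ↔
      ((X k ^ i : U) : I) 1 (k + 1) = 0 := by
    intro i
    rw [← comm_iff, Subtype.ext_iff]
    rfl
  have h1 := LP.comm_all b hb (f u) (f x) (f v) (fun i hi => by
    have := (key i).2 ((X_pow k i).1 (k + 1) (by omega))
    have := congrArg f this
    simpa only [map_mul, map_pow, map_inv] using this) k
  have h2 : f (u * (x ^ k * v * (x ^ k)⁻¹)) = f ((x ^ k * v * (x ^ k)⁻¹) * u) := by
    simpa only [map_mul, map_pow, map_inv] using h1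
  have h3 := (key k).1 (hf h2)
  rw [(X_pow k k).2 le_rfl] at h3
  exact one_ne_zero h3

end Pool.Agent.Y134.LP
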